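import Pool.Agent.J6H46.QI.Main

/-!
# Uniform mixing is not robust under quasi-isometries, even from vertex-transitive graphs

There are `b`, `d`, `D` and pairs `(G, G')` of finite connected graphs, `G` vertex-transitive of
degree `d`, `G'` regular of degree `D` and `(1, b)`-quasi-isometric to `G`, for which the ratio of
the uniform mixing times of the lazy simple random walks is arbitrarily large.

Construction.  Let `P` be a large member of a sequence of bounded degree expander Cayley graphs
and `n = s ^ 4` with `2 ^ (n / 16) < |P| <= 2 ^ n`.  A pointer moves on `P x P x (Z / n)`, the last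
factor having the jumps `1, s, s ^ 2, s ^ 3`.  Each site of `P x P` carries a block, an element of
`F_2 ^ n`; the pointer at `(p, p', c)` may add to the block of `(p, p')` the `c`-th unit vector or
the `c`-th cyclic shift of a fixed word `b`, chosen such that a random element of `F_2 ^ n` has
word length linear in `n`.  This is the vertex-transitive graph `G`; its uniform mixing time is
`O(|P| ^ 2 * n * s ^ 2)`.  Some blocks are grouped in pairs of clusters with a hierarchy of
`M = s ^ 3` very different sizes, the level of a cluster being the total word length of its blocks.
Bounded integer weights depending on the levels confine the levels of the smallest clusters near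
zero for a time of order `M * |P| ^ 2 * n`.  The weighted graph is turned into a regular simple
graph `G'` by a blow-up, and the ratio of the two uniform mixing times is at least `const * s`.
-/

set_option autoImplicit false
open Classical

namespace Pool.Agent.Results.MP_50f558_pr.NotRobust
open Pool.Agent.J6H46.QI

/-- Negative answer: for some `b, d, D` and every `C` there are a finite connected vertex-transitive
graph `G` of degree `d` and a finite connected `D`-regular graph `G'`, `(1, b)`-quasi-isometric
to `G`, with `t_inf(G') > C * t_inf(G)`. -/
theorem result : ∃ (b : ℝ) (d D : ℕ), 0 ≤ b ∧ ∀ C : ℝ,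
    ∃ (V V' : Type) (_ : Fintype V) (_ : Fintype V') (G : SimpleGraph V) (G' : SimpleGraph V'),
      G.Connected ∧ G'.Connected ∧ VertexTransitive G ∧ (∀ v, G.degree v = d) ∧
      (∀ v, G'.degree v = D) ∧ IsQI 1 b G G' ∧ (∃ t, Mixed G t) ∧ (∃ t, Mixed G' t) ∧
      C * (tInf G : ℝ) < (tInf G' : ℝ) := by
  obtain ⟨dX, -, h⟩ := exists_deg
  exact ⟨2 * (Dc dX : ℝ), dX + 2, Dc dX, by positivity, h⟩

end Pool.Agent.Results.MP_50f558_pr.NotRobust
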